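import Mathlib

/-!
# Graph products of monoids and the relation `R~`
-/

namespace Pool.Agent.H.MP_96aaf1_al

universe u v

/-- The relation `R~` on a monoid `S`: `a R~ b` iff for every idempotent `e` of `S`,
`e * a = a ↔ e * b = b`. -/
def RTilde (S : Type*) [Monoid S] (a b : S) : Prop :=
  ∀ e : S, e * e = e → (e * a = a ↔ e * b = b)

/-- A relation `ρ` on a monoid `S` is a left congruence if it is an equivalence relation such
that `ρ a b` implies `ρ (c * a) (c * b)` for all `c`. -/
def IsLeftCongruence {S : Type*} [Monoid S] (ρ : S → S → Prop) : Prop :=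
  Equivalence ρ ∧ ∀ a b c : S, ρ a b → ρ (c * a) (c * b)

variable {V : Type u} (Γ : SimpleGraph V) (M : V → Type v) [∀ α, Monoid (M α)]

/-- The defining relations of the graph product, on the free monoid over the disjoint union
`Σ α, M α` of the vertex monoids:
* `mul`: `u ∘ v = uv` for `u, v` in the same vertex monoid;
* `one`: the identity of a vertex monoid is the empty word;
* `comm`: elements of vertex monoids at adjacent vertices commute. -/
inductive Rel : FreeMonoid (Σ α, M α) → FreeMonoid (Σ α, M α) → Prop
  | mul (α : V) (u v : M α) :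
      Rel (FreeMonoid.of ⟨α, u⟩ * FreeMonoid.of ⟨α, v⟩) (FreeMonoid.of ⟨α, u * v⟩)
  | one (α : V) : Rel (FreeMonoid.of ⟨α, 1⟩) 1
  | comm (α β : V) (h : Γ.Adj α β) (u : M α) (v : M β) :
      Rel (FreeMonoid.of ⟨α, u⟩ * FreeMonoid.of ⟨β, v⟩)
        (FreeMonoid.of ⟨β, v⟩ * FreeMonoid.of ⟨α, u⟩)

/-- The graph product of the monoids `M α` with respect to the graph `Γ`: the quotient of the
free monoid on `Σ α, M α` by the congruence generated by the defining relations. -/
abbrev GraphProduct : Type (max u v) := (conGen (Rel Γ M)).Quotient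

end Pool.Agent.H.MP_96aaf1_al
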