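import Pool.Agent.H.MP_96aaf1_al.Words
import Pool.Agent.H.MP_96aaf1_al.Defs

/-!
# The action of a graph product on shuffle classes of reduced words; normal form theorem
-/

set_option linter.unusedSectionVars false

namespace Pool.Agent.H.MP_96aaf1_al

universe u v

variable {V : Type u} {Γ : SimpleGraph V} {M : V → Type v} [∀ α, Monoid (M α)]

open Classical in
/-- Left multiplication of a (reduced) word by a letter. -/
noncomputable def act (Γ : SimpleGraph V) (x : Σ α, M α) (l : List (Σ α, M α)) :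
    List (Σ α, M α) :=
  if x.2 * hd Γ x.1 l = 1 then tl Γ x.1 l else ⟨x.1, x.2 * hd Γ x.1 l⟩ :: tl Γ x.1 l

lemma act_of_eq {α : V} {m : M α} {l : List (Σ α, M α)} (h : m * hd Γ α l = 1) :
    act Γ ⟨α, m⟩ l = tl Γ α l := by
  simp [act, h]

lemma act_of_ne {α : V} {m : M α} {l : List (Σ α, M α)} (h : m * hd Γ α l ≠ 1) :
    act Γ ⟨α, m⟩ l = ⟨α, m * hd Γ α l⟩ :: tl Γ α l := by
  simp [act, h]

lemma act_red {x : Σ α, M α} {l : List (Σ α, M α)} (hr : Red Γ l) : Red Γ (act Γ x l) := by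
  obtain ⟨α, m⟩ := x
  by_cases h : m * hd Γ α l = 1
  · rw [act_of_eq h]; exact (red_tl hr).1
  · rw [act_of_ne h]; exact ⟨h, (red_tl hr).2, (red_tl hr).1⟩

lemma act_sh {x : Σ α, M α} {l l' : List (Σ α, M α)} (hs : Sh Γ l l') :
    Sh Γ (act Γ x l) (act Γ x l') := by
  obtain ⟨α, m⟩ := x
  have h1 := hs.hd_eq α
  by_cases h : m * hd Γ α l = 1
  · rw [act_of_eq h, act_of_eq (h1 ▸ h)]; exact hs.tl_sh α
  · rw [act_of_ne h, act_of_ne (h1 ▸ h), h1]; exact Sh.cons _ (hs.tl_sh α)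

lemma hd_act {α : V} {m : M α} {l : List (Σ α, M α)} (hr : Red Γ l) :
    hd Γ α (act Γ ⟨α, m⟩ l) = m * hd Γ α l := by
  by_cases h : m * hd Γ α l = 1
  · rw [act_of_eq h, h]; exact (red_tl hr).2
  · rw [act_of_ne h, hd_same]

lemma tl_act {α : V} {m : M α} {l : List (Σ α, M α)} (hr : Red Γ l) :
    tl Γ α (act Γ ⟨α, m⟩ l) = tl Γ α l := by
  by_cases h : m * hd Γ α l = 1
  · rw [act_of_eq h]; exact tl_eq_self (red_tl hr).1 (red_tl hr).2
  · rw [act_of_ne h, tl_same]

lemma act_act_same {α : V} {m n : M α} {l : List (Σ α, M α)} (hr : Red Γ l) :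
    act Γ ⟨α, m⟩ (act Γ ⟨α, n⟩ l) = act Γ ⟨α, m * n⟩ l := by
  by_cases h : m * n * hd Γ α l = 1
  · have h' : m * hd Γ α (act Γ ⟨α, n⟩ l) = 1 := by rw [hd_act hr, ← mul_assoc, h]
    rw [act_of_eq h, act_of_eq h', tl_act hr]
  · have h' : m * hd Γ α (act Γ ⟨α, n⟩ l) ≠ 1 := by rwa [hd_act hr, ← mul_assoc]
    rw [act_of_ne h, act_of_ne h', tl_act hr, hd_act hr, mul_assoc]

lemma act_one_sh {α : V} {l : List (Σ α, M α)} (hr : Red Γ l) :
    Sh Γ (act Γ ⟨α, 1⟩ l) l := by
  by_cases h : (1 : M α) * hd Γ α l = 1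
  · rw [act_of_eq h]
    rw [one_mul] at h
    rw [tl_eq_self hr h]; exact Sh.refl _
  · rw [act_of_ne h]
    rw [one_mul] at h ⊢
    exact (sh_hd_tl h).symm

lemma hd_tl_adj {α β : V} (hab : Γ.Adj α β) (l : List (Σ α, M α)) :
    hd Γ α (tl Γ β l) = hd Γ α l := by
  induction l with
  | nil => rfl
  | cons a l ih =>
    rcases letter_cases Γ β a with ⟨m, rfl⟩ | h1 | ⟨h1, h2⟩
    · rw [tl_same, hd_adj hab]
    · rw [tl_adj h1]
      rcases letter_cases Γ α a with ⟨m, rfl⟩ | h3 | ⟨h3, h4⟩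
      · simp
      · rw [hd_adj h3, hd_adj h3, ih]
      · rw [hd_block h3 h4, hd_block h3 h4]
    · rw [tl_block h1 h2]

lemma tl_tl_comm {α β : V} (hab : Γ.Adj α β) (l : List (Σ α, M α)) :
    tl Γ α (tl Γ β l) = tl Γ β (tl Γ α l) := by
  induction l with
  | nil => rfl
  | cons a l ih =>
    rcases letter_cases Γ β a with ⟨m, rfl⟩ | h1 | ⟨h1, h2⟩
    · rw [tl_same, tl_adj hab, tl_same]
    · rw [tl_adj h1]
      rcases letter_cases Γ α a with ⟨m, rfl⟩ | h3 | ⟨h3, h4⟩
      · rw [tl_same, tl_same]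
      · rw [tl_adj h3, tl_adj h3, tl_adj h1, ih]
      · rw [tl_block h3 h4, tl_block h3 h4, tl_adj h1]
    · rw [tl_block h1 h2]
      rcases letter_cases Γ α a with ⟨m, rfl⟩ | h3 | ⟨h3, h4⟩
      · exact absurd hab.symm h2
      · rw [tl_adj h3, tl_block h1 h2]
      · rw [tl_block h3 h4, tl_block h1 h2]

lemma hd_act_adj {α β : V} (hab : Γ.Adj α β) (m : M β) (l : List (Σ α, M α)) :
    hd Γ α (act Γ ⟨β, m⟩ l) = hd Γ α l := by
  by_cases h : m * hd Γ β l = 1
  · rw [act_of_eq h, hd_tl_adj hab]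
  · rw [act_of_ne h, hd_adj hab, hd_tl_adj hab]

lemma act_comm_sh {α β : V} (hab : Γ.Adj α β) (m : M α) (n : M β) (l : List (Σ α, M α)) :
    Sh Γ (act Γ ⟨α, m⟩ (act Γ ⟨β, n⟩ l)) (act Γ ⟨β, n⟩ (act Γ ⟨α, m⟩ l)) := by
  by_cases hm : m * hd Γ α l = 1 <;> by_cases hn : n * hd Γ β l = 1
  · rw [act_of_eq (m := m) (l := act Γ ⟨β, n⟩ l) (by rw [hd_act_adj hab, hm]),
      act_of_eq (m := n) (l := act Γ ⟨α, m⟩ l) (by rw [hd_act_adj hab.symm, hn]),
      act_of_eq hm, act_of_eq hn, tl_tl_comm hab]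
    exact Sh.refl _
  · rw [act_of_eq (m := m) (l := act Γ ⟨β, n⟩ l) (by rw [hd_act_adj hab, hm]),
      act_of_ne (m := n) (l := act Γ ⟨α, m⟩ l) (by rw [hd_act_adj hab.symm]; exact hn),
      hd_act_adj hab.symm, act_of_eq hm, act_of_ne hn, tl_adj hab, tl_tl_comm hab]
    exact Sh.refl _
  · rw [act_of_ne (m := m) (l := act Γ ⟨β, n⟩ l) (by rw [hd_act_adj hab]; exact hm),
      act_of_eq (m := n) (l := act Γ ⟨α, m⟩ l) (by rw [hd_act_adj hab.symm, hn]),
      hd_act_adj hab, act_of_ne hm, act_of_eq hn, tl_adj hab.symm, tl_tl_comm hab]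
    exact Sh.refl _
  · rw [act_of_ne (m := m) (l := act Γ ⟨β, n⟩ l) (by rw [hd_act_adj hab]; exact hm),
      act_of_ne (m := n) (l := act Γ ⟨α, m⟩ l) (by rw [hd_act_adj hab.symm]; exact hn),
      hd_act_adj hab, hd_act_adj hab.symm, act_of_ne hm, act_of_ne hn, tl_adj hab,
      tl_adj hab.symm, tl_tl_comm hab]
    exact Sh.swap _ _ _ hab

variable (Γ M)

/-- Shuffle equivalence on reduced words. -/
def shSetoid : Setoid {l : List (Σ α, M α) // Red Γ l} where
  r l l' := Sh Γ l.1 l'.1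
  iseqv := ⟨fun _ => Sh.refl _, fun h => h.symm, fun h h' => h.trans h'⟩

/-- Shuffle classes of reduced words. -/
def NF : Type _ := Quotient (shSetoid Γ M)

variable {Γ M}

/-- The action of a letter on normal forms. -/
noncomputable def actQ (x : Σ α, M α) : Function.End (NF Γ M) :=
  Quotient.map' (fun l => ⟨act Γ x l.1, act_red l.2⟩) (fun _ _ h => act_sh h)

/-- The action of the free monoid on normal forms. -/
noncomputable def actFree : FreeMonoid (Σ α, M α) →* Function.End (NF Γ M) :=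
  FreeMonoid.lift actQ

lemma conGen_le_ker : conGen (Rel Γ M) ≤ Con.ker (actFree : FreeMonoid (Σ α, M α) →* Function.End (NF Γ M)) := by
  rw [Con.conGen_le]
  intro x y h
  change actFree x = actFree y
  cases h with
  | mul α m n =>
    rw [map_mul]
    simp only [actFree, FreeMonoid.lift_eval_of]
    funext q
    induction q using Quotient.inductionOn' with
    | h l =>
      apply Quotient.sound'
      change Sh Γ (act Γ ⟨α, m⟩ (act Γ ⟨α, n⟩ l.1)) (act Γ ⟨α, m * n⟩ l.1)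
      rw [act_act_same l.2]
      exact Sh.refl _
  | one α =>
    rw [map_one]
    simp only [actFree, FreeMonoid.lift_eval_of]
    funext q
    induction q using Quotient.inductionOn' with
    | h l =>
      apply Quotient.sound'
      exact act_one_sh l.2
  | comm α β hab m n =>
    rw [map_mul, map_mul]
    simp only [actFree, FreeMonoid.lift_eval_of]
    funext q
    induction q using Quotient.inductionOn' with
    | h l =>
      apply Quotient.sound'
      exact act_comm_sh hab m n l.1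

/-- The action of the graph product on normal forms. -/
noncomputable def actGP : GraphProduct Γ M →* Function.End (NF Γ M) :=
  Con.lift _ actFree conGen_le_ker

/-- The element represented by a word. -/
def mk (Γ : SimpleGraph V) (w : List (Σ α, M α)) : GraphProduct Γ M :=
  ((FreeMonoid.ofList w : FreeMonoid (Σ α, M α)) : GraphProduct Γ M)

lemma mk_nil : mk Γ ([] : List (Σ α, M α)) = 1 := rfl

lemma mk_append (w w' : List (Σ α, M α)) : mk Γ (w ++ w') = mk Γ w * mk Γ w' := rfl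

lemma mk_cons (a : Σ α, M α) (w : List (Σ α, M α)) : mk Γ (a :: w) = mk Γ [a] * mk Γ w := rfl

lemma mk_surj (x : GraphProduct Γ M) : ∃ w, mk Γ w = x := by
  obtain ⟨w, rfl⟩ := Con.mk'_surjective (c := conGen (Rel Γ M)) x
  exact ⟨FreeMonoid.toList w, rfl⟩

lemma rel_eq {x y : FreeMonoid (Σ α, M α)} (h : Rel Γ M x y) :
    (x : GraphProduct Γ M) = (y : GraphProduct Γ M) :=
  (Con.eq _).mpr (ConGen.Rel.of _ _ h)

/-- The canonical map of a vertex monoid to the graph product. -/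
def ι (Γ : SimpleGraph V) (α : V) : M α →* GraphProduct Γ M where
  toFun m := mk Γ [⟨α, m⟩]
  map_one' := rel_eq (Rel.one α)
  map_mul' m n := (rel_eq (Rel.mul α m n)).symm

lemma mk_singleton (a : Σ α, M α) : mk Γ [a] = ι Γ a.1 a.2 := rfl

lemma ι_comm {α β : V} (h : Γ.Adj α β) (m : M α) (n : M β) :
    ι Γ α m * ι Γ β n = ι Γ β n * ι Γ α m := rel_eq (Rel.comm α β h m n)

lemma Sh.mk_eq {l l' : List (Σ α, M α)} (h : Sh Γ l l') : mk Γ l = mk Γ l' := by
  induction h with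
  | refl l => rfl
  | cons a _ ih => rw [mk_cons, ih, ← mk_cons]
  | swap a b l hab =>
    have e1 : mk Γ (a :: b :: l) = mk Γ [a] * (mk Γ [b] * mk Γ l) := rfl
    have e2 : mk Γ (b :: a :: l) = mk Γ [b] * (mk Γ [a] * mk Γ l) := rfl
    rw [e1, e2, ← mul_assoc, ← mul_assoc]
    rw [mk_singleton, mk_singleton, ι_comm hab]
  | trans _ _ ih1 ih2 => rw [ih1, ih2]

lemma mk_act (x : Σ α, M α) (l : List (Σ α, M α)) (hr : Red Γ l) :
    mk Γ (act Γ x l) = mk Γ (x :: l) := by
  obtain ⟨α, m⟩ := x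
  have key : ι Γ α (hd Γ α l) * mk Γ (tl Γ α l) = mk Γ l := by
    by_cases h : hd Γ α l = 1
    · rw [h, map_one, one_mul, tl_eq_self hr h]
    · exact ((sh_hd_tl h).mk_eq).symm
  by_cases h : m * hd Γ α l = 1
  · rw [act_of_eq h, mk_cons, ← key, mk_singleton, ← mul_assoc, ← map_mul]
    change _ = ι Γ α (m * hd Γ α l) * _
    rw [h, map_one, one_mul]
  · rw [act_of_ne h, mk_cons, mk_cons _ l, ← key, mk_singleton, mk_singleton, ← mul_assoc,
      ← map_mul]

/-- Every element of the graph product is represented by a reduced word. -/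
lemma exists_red (x : GraphProduct Γ M) : ∃ w, Red Γ w ∧ mk Γ w = x := by
  obtain ⟨w, rfl⟩ := mk_surj x
  induction w with
  | nil => exact ⟨[], trivial, rfl⟩
  | cons a w ih =>
    obtain ⟨w', hr, hw⟩ := ih
    refine ⟨act Γ a w', act_red hr, ?_⟩
    rw [mk_act a w' hr, mk_cons, hw, ← mk_cons]

lemma actGP_mk (w : List (Σ α, M α)) (hr : Red Γ w) :
    actGP (mk Γ w) (Quotient.mk'' ⟨[], red_nil⟩) = Quotient.mk'' ⟨w, hr⟩ := by
  induction w with
  | nil => rfl
  | cons a w ih =>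
    rw [mk_cons, map_mul]
    change actGP (mk Γ [a]) (actGP (mk Γ w) (Quotient.mk'' ⟨[], red_nil⟩)) = _
    rw [ih hr.2.2]
    apply Quotient.sound'
    change Sh Γ (act Γ a w) (a :: w)
    obtain ⟨α, m⟩ := a
    have h1 : hd Γ α w = 1 := hr.2.1
    have h2 : m * hd Γ α w ≠ 1 := by rw [h1, mul_one]; exact hr.1
    rw [act_of_ne h2, h1, mul_one, tl_eq_self hr.2.2 h1]
    exact Sh.refl _

/-- **Normal form theorem**: reduced words representing the same element are shuffle
equivalent. -/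
theorem sh_of_mk_eq {w w' : List (Σ α, M α)} (hr : Red Γ w) (hr' : Red Γ w')
    (h : mk Γ w = mk Γ w') : Sh Γ w w' := by
  have h1 := actGP_mk w hr
  rw [h, actGP_mk w' hr'] at h1
  exact (Quotient.exact' h1).symm

end Pool.Agent.H.MP_96aaf1_al
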