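import Pool.Agent.H.MP_96aaf1_al.Action

/-!
# Heads in the graph product and the structure of products of two reduced words
-/

set_option linter.unusedSectionVars false

namespace Pool.Agent.H.MP_96aaf1_al

universe u v

variable {V : Type u} {Γ : SimpleGraph V} {M : V → Type v} [∀ α, Monoid (M α)]

lemma tl_act_adj {α β : V} (hab : Γ.Adj α β) (m : M β) (l : List (Σ α, M α)) :
    tl Γ α (act Γ ⟨β, m⟩ l) = act Γ ⟨β, m⟩ (tl Γ α l) := by
  by_cases h : m * hd Γ β l = 1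
  · rw [act_of_eq h, act_of_eq (by rw [hd_tl_adj hab.symm]; exact h), tl_tl_comm hab]
  · rw [act_of_ne h, act_of_ne (by rw [hd_tl_adj hab.symm]; exact h), tl_adj hab, tl_tl_comm hab,
      hd_tl_adj hab.symm]

/-- The `α`-head of an element of the graph product. -/
noncomputable def H (α : V) (x : GraphProduct Γ M) : M α := hd Γ α (exists_red x).choose

/-- What remains after removing the `α`-head. -/
noncomputable def T (α : V) (x : GraphProduct Γ M) : GraphProduct Γ M :=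
  mk Γ (tl Γ α (exists_red x).choose)

lemma H_mk (α : V) {w : List (Σ α, M α)} (hr : Red Γ w) : H α (mk Γ w) = hd Γ α w := by
  have h := (exists_red (mk Γ w)).choose_spec
  exact (sh_of_mk_eq h.1 hr h.2).hd_eq α

lemma T_mk (α : V) {w : List (Σ α, M α)} (hr : Red Γ w) : T α (mk Γ w) = mk Γ (tl Γ α w) := by
  have h := (exists_red (mk Γ w)).choose_spec
  exact ((sh_of_mk_eq h.1 hr h.2).tl_sh α).mk_eq

lemma ι_mul_mk {α : V} (m : M α) {w : List (Σ α, M α)} (hr : Red Γ w) :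
    ι Γ α m * mk Γ w = mk Γ (act Γ ⟨α, m⟩ w) := by
  rw [mk_act _ _ hr]; rfl

lemma H_ι_mul (α : V) (m : M α) (x : GraphProduct Γ M) : H α (ι Γ α m * x) = m * H α x := by
  obtain ⟨w, hr, rfl⟩ := exists_red x
  rw [ι_mul_mk m hr, H_mk α (act_red hr), H_mk α hr, hd_act hr]

lemma T_ι_mul (α : V) (m : M α) (x : GraphProduct Γ M) : T α (ι Γ α m * x) = T α x := by
  obtain ⟨w, hr, rfl⟩ := exists_red x
  rw [ι_mul_mk m hr, T_mk α (act_red hr), T_mk α hr, tl_act hr]

lemma H_ι_adj {α β : V} (h : Γ.Adj α β) (m : M β) (x : GraphProduct Γ M) :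
    H α (ι Γ β m * x) = H α x := by
  obtain ⟨w, hr, rfl⟩ := exists_red x
  rw [ι_mul_mk m hr, H_mk α (act_red hr), H_mk α hr, hd_act_adj h]

lemma T_ι_adj {α β : V} (h : Γ.Adj α β) (m : M β) (x : GraphProduct Γ M) :
    T α (ι Γ β m * x) = ι Γ β m * T α x := by
  obtain ⟨w, hr, rfl⟩ := exists_red x
  rw [ι_mul_mk m hr, T_mk α (act_red hr), T_mk α hr, tl_act_adj h, ι_mul_mk m (red_tl hr).1]

lemma decomp (α : V) (x : GraphProduct Γ M) : ι Γ α (H α x) * T α x = x := by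
  obtain ⟨w, hr, rfl⟩ := exists_red x
  rw [H_mk α hr, T_mk α hr]
  by_cases h : hd Γ α w = 1
  · rw [h, map_one, one_mul, tl_eq_self hr h]
  · exact ((sh_hd_tl h).mk_eq).symm

lemma H_T (α : V) (x : GraphProduct Γ M) : H α (T α x) = 1 := by
  obtain ⟨w, hr, rfl⟩ := exists_red x
  rw [T_mk α hr, H_mk α (red_tl hr).1, (red_tl hr).2]

lemma T_of_H_eq_one {α : V} {x : GraphProduct Γ M} (h : H α x = 1) : T α x = x := by
  have := decomp α x
  rwa [h, map_one, one_mul] at this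

lemma H_one (α : V) : H α (1 : GraphProduct Γ M) = 1 := H_mk α red_nil

/-- The submonoid generated by the vertex monoids adjacent to `α`. -/
def C (Γ : SimpleGraph V) (M : V → Type v) [∀ α, Monoid (M α)] (α : V) :
    Submonoid (GraphProduct Γ M) :=
  Submonoid.closure {x | ∃ β, Γ.Adj α β ∧ ∃ m : M β, x = ι Γ β m}

lemma C_facts {α : V} {c : GraphProduct Γ M} (hc : c ∈ C Γ M α) :
    (∀ x, H α (c * x) = H α x) ∧ (∀ x, T α (c * x) = c * T α x) ∧
      (∀ m : M α, c * ι Γ α m = ι Γ α m * c) := by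
  induction hc using Submonoid.closure_induction with
  | mem x hx =>
    obtain ⟨β, hβ, m, rfl⟩ := hx
    exact ⟨H_ι_adj hβ m, T_ι_adj hβ m, fun n => (ι_comm hβ n m).symm⟩
  | one => exact ⟨fun x => by rw [one_mul], fun x => by rw [one_mul, one_mul],
      fun m => by rw [one_mul, mul_one]⟩
  | mul x y _ _ hx hy =>
    refine ⟨fun z => ?_, fun z => ?_, fun m => ?_⟩
    · rw [mul_assoc, hx.1, hy.1]
    · rw [mul_assoc, hx.2.1, hy.2.1, mul_assoc]
    · rw [mul_assoc, hy.2.2, ← mul_assoc, hx.2.2, mul_assoc]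

lemma mk_mem_C {α : V} {w : List (Σ α, M α)} (h : AllAdj Γ α w) : mk Γ w ∈ C Γ M α := by
  induction w with
  | nil => exact (C Γ M α).one_mem
  | cons a w ih =>
    rw [allAdj_cons] at h
    rw [mk_cons]
    exact (C Γ M α).mul_mem (Submonoid.subset_closure ⟨a.1, h.1, a.2, rfl⟩) (ih h.2)

/-- `v` and `u` are letterwise inverse: `v u = 1`. -/
inductive Inv : List (Σ α, M α) → List (Σ α, M α) → Prop
  | nil : Inv [] []
  | cons {α : V} {q p : M α} {v u : List (Σ α, M α)} :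
      q * p = 1 → Inv v u → Inv (⟨α, q⟩ :: v) (u ++ [⟨α, p⟩])

/-- `κ`, `l` are cliques with the same support and `μ` is their letterwise product. -/
inductive Mrg (Γ : SimpleGraph V) :
    List (Σ α, M α) → List (Σ α, M α) → List (Σ α, M α) → Prop
  | nil : Mrg Γ [] [] []
  | cons {α : V} {p q : M α} {k l m : List (Σ α, M α)} :
      AllAdj Γ α k → Mrg Γ k l m → Mrg Γ (⟨α, p⟩ :: k) (⟨α, q⟩ :: l) (⟨α, p * q⟩ :: m)

lemma Inv.allAdj {v u : List (Σ α, M α)} (h : Inv v u) {α : V} (hu : AllAdj Γ α u) :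
    AllAdj Γ α v := by
  induction h with
  | nil => exact allAdj_nil α
  | cons _ _ ih =>
    rw [allAdj_append, allAdj_cons] at hu
    rw [allAdj_cons]
    exact ⟨hu.2.1, ih hu.1⟩

lemma Mrg.fst_eq {k l m : List (Σ α, M α)} (h : Mrg Γ k l m) :
    k.map Sigma.fst = l.map Sigma.fst ∧ m.map Sigma.fst = l.map Sigma.fst := by
  induction h with
  | nil => exact ⟨rfl, rfl⟩
  | cons _ _ ih => simp [ih.1, ih.2]

lemma allAdj_iff_fst {α : V} {k l : List (Σ α, M α)} (h : k.map Sigma.fst = l.map Sigma.fst) :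
    AllAdj Γ α k ↔ AllAdj Γ α l := by
  have key : ∀ k : List (Σ α, M α), AllAdj Γ α k ↔ ∀ β ∈ k.map Sigma.fst, Γ.Adj α β := by
    intro k
    simp only [AllAdj, List.mem_map]
    constructor
    · rintro h β ⟨b, hb, rfl⟩; exact h b hb
    · intro h b hb; exact h b.1 ⟨b, hb, rfl⟩
  rw [key, key, h]

lemma Mrg.hd_one {k l m : List (Σ α, M α)} (h : Mrg Γ k l m) {α : V}
    (hk : ∀ a ∈ k, a.2 ≠ 1) (h1 : hd Γ α k = 1) : hd Γ α m = 1 := by
  induction h with
  | nil => rfl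
  | @cons β p q k l m _ _ ih =>
    by_cases hβ : β = α
    · subst hβ
      rw [hd_same] at h1
      exact absurd h1 (hk ⟨β, p⟩ (by simp))
    · by_cases hadj : Γ.Adj α β
      · rw [hd_adj hadj] at h1 ⊢
        exact ih (fun a ha => hk a (List.mem_cons_of_mem _ ha)) h1
      · exact hd_block hβ hadj _

lemma Inv.mk_eq {v u : List (Σ α, M α)} (h : Inv v u) : mk Γ v * mk Γ u = 1 := by
  induction h with
  | nil => rfl
  | @cons α q p v u hqp _ ih =>
    rw [mk_cons, mk_append, mk_singleton, mk_singleton, mul_assoc, ← mul_assoc (mk Γ v), ih,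
      one_mul, ← map_mul, hqp, map_one]

lemma Mrg.mk_eq {k l m : List (Σ α, M α)} (h : Mrg Γ k l m) : mk Γ k * mk Γ l = mk Γ m := by
  induction h with
  | nil => rfl
  | @cons α p q k l m hadj _ ih =>
    rw [mk_cons, mk_cons _ l, mk_cons _ m, mk_singleton, mk_singleton, mk_singleton, ← ih]
    have := (C_facts (mk_mem_C hadj)).2.2 q
    change ι Γ α p * mk Γ k * (ι Γ α q * mk Γ l) = ι Γ α (p * q) * (mk Γ k * mk Γ l)
    rw [map_mul, mul_assoc, ← mul_assoc (mk Γ k), this]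
    simp only [mul_assoc]

/-- **Product structure lemma.** -/
theorem product_structure (x : List (Σ α, M α)) : ∀ y : List (Σ α, M α), Red Γ x → Red Γ y →
    ∃ x' k v u l m y' : List (Σ α, M α), Sh Γ x (x' ++ (k ++ v)) ∧ Sh Γ y (u ++ (l ++ y')) ∧
      Inv v u ∧ Mrg Γ k l m ∧ Red Γ (x' ++ (m ++ y')) := by
  induction x with
  | nil =>
    intro y _ hy
    exact ⟨[], [], [], [], [], [], y, Sh.refl _, Sh.refl _, Inv.nil, Mrg.nil, hy⟩
  | cons a x ih =>
    intro y hx hy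
    obtain ⟨x', k, v, u, l, m, y', h1, h2, h3, h4, h5⟩ := ih y hx.2.2 hy
    obtain ⟨γ, c⟩ := a
    by_cases hn : hd Γ γ (x' ++ (m ++ y')) = 1
    · exact ⟨⟨γ, c⟩ :: x', k, v, u, l, m, y', Sh.cons _ h1, h2, h3, h4, hx.1, hn, h5⟩
    · have hx1 : hd Γ γ (x' ++ (k ++ v)) = 1 := by rw [← h1.hd_eq]; exact hx.2.1
      have hredx : Red Γ (x' ++ (k ++ v)) := h1.red hx.2.2
      have hx' : AllAdj Γ γ x' := by
        by_contra hcon
        rw [hd_append_of_not hcon] at hx1 hn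
        exact hn hx1
      rw [hd_append_of_allAdj hx'] at hx1 hn
      have hk : AllAdj Γ γ k := by
        by_contra hcon
        have hm : ¬ AllAdj Γ γ m := by
          rw [allAdj_iff_fst (h4.fst_eq.2.trans h4.fst_eq.1.symm)]; exact hcon
        rw [hd_append_of_not hcon] at hx1
        rw [hd_append_of_not hm] at hn
        exact hn (h4.hd_one (fun b hb => hredx.ne_one b (by simp [hb])) hx1)
      have hm : AllAdj Γ γ m := by
        rw [allAdj_iff_fst (h4.fst_eq.2.trans h4.fst_eq.1.symm)]; exact hk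
      have hl : AllAdj Γ γ l := by
        rw [allAdj_iff_fst h4.fst_eq.1.symm]; exact hk
      rw [hd_append_of_allAdj hm] at hn
      have htl : tl Γ γ (x' ++ (m ++ y')) = x' ++ (m ++ tl Γ γ y') := by
        rw [tl_append_of_allAdj hx', tl_append_of_allAdj hm]
      have hred : Red Γ (x' ++ (m ++ tl Γ γ y')) := by rw [← htl]; exact (red_tl h5).1
      have hhd : hd Γ γ (x' ++ (m ++ tl Γ γ y')) = 1 := by rw [← htl]; exact (red_tl h5).2
      have hy' : Sh Γ y' (⟨γ, hd Γ γ y'⟩ :: tl Γ γ y') := sh_hd_tl hn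
      have hyy : Sh Γ y (u ++ ([⟨γ, hd Γ γ y'⟩] ++ (l ++ tl Γ γ y'))) :=
        h2.trans (Sh.append_left u ((Sh.append_left l hy').trans (Sh.move hl _).symm))
      by_cases hc : c * hd Γ γ y' = 1
      · refine ⟨x', k, ⟨γ, c⟩ :: v, u ++ [⟨γ, hd Γ γ y'⟩], l, m, tl Γ γ y', ?_, ?_,
          Inv.cons hc h3, h4, hred⟩
        · refine (Sh.cons _ h1).trans ((Sh.move hx' _).trans (Sh.append_left x' ?_))
          exact Sh.move hk _
        · rw [List.append_assoc]; exact hyy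
      · refine ⟨x', ⟨γ, c⟩ :: k, v, u, ⟨γ, hd Γ γ y'⟩ :: l, ⟨γ, c * hd Γ γ y'⟩ :: m, tl Γ γ y',
          ?_, ?_, h3, Mrg.cons hk h4, ?_⟩
        · exact (Sh.cons _ h1).trans (Sh.move hx' _)
        · exact hyy
        · refine Sh.red (Sh.move (a := ⟨γ, c * hd Γ γ y'⟩) hx' (m ++ tl Γ γ y')) ?_
          exact ⟨hc, hhd, hred⟩

end Pool.Agent.H.MP_96aaf1_al
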