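import Mathlib

/-!
# Words for graph products of monoids: heads, shuffles, reduced words
-/

set_option linter.unusedSectionVars false

namespace Pool.Agent.H.MP_96aaf1_al

universe u v

variable {V : Type u} (Γ : SimpleGraph V) {M : V → Type v} [∀ α, Monoid (M α)]

/-- Shuffle equivalence: generated by exchanging neighbouring letters from adjacent vertices. -/
inductive Sh : List (Σ α, M α) → List (Σ α, M α) → Prop
  | refl (l) : Sh l l
  | cons (a) {l l'} : Sh l l' → Sh (a :: l) (a :: l')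
  | swap (a b l) : Γ.Adj a.1 b.1 → Sh (a :: b :: l) (b :: a :: l)
  | trans {l l' l''} : Sh l l' → Sh l' l'' → Sh l l''

variable {Γ}

lemma Sh.symm {l l' : List (Σ α, M α)} (h : Sh Γ l l') : Sh Γ l' l := by
  induction h with
  | refl l => exact Sh.refl l
  | cons a _ ih => exact Sh.cons a ih
  | swap a b l hab => exact Sh.swap b a l hab.symm
  | trans _ _ ih1 ih2 => exact Sh.trans ih2 ih1

lemma Sh.perm {l l' : List (Σ α, M α)} (h : Sh Γ l l') : List.Perm l l' := by
  induction h with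
  | refl l => exact List.Perm.refl l
  | cons a _ ih => exact List.Perm.cons a ih
  | swap a b l hab => exact List.Perm.swap b a l
  | trans _ _ ih1 ih2 => exact ih1.trans ih2

lemma Sh.append_left (k : List (Σ α, M α)) {l l' : List (Σ α, M α)} (h : Sh Γ l l') :
    Sh Γ (k ++ l) (k ++ l') := by
  induction k with
  | nil => exact h
  | cons a k ih => exact Sh.cons a ih

lemma Sh.append_right {l l' : List (Σ α, M α)} (h : Sh Γ l l') (k : List (Σ α, M α)) :
    Sh Γ (l ++ k) (l' ++ k) := by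
  induction h with
  | refl l => exact Sh.refl _
  | cons a _ ih => exact Sh.cons a ih
  | swap a b l hab => exact Sh.swap a b _ hab
  | trans _ _ ih1 ih2 => exact Sh.trans ih1 ih2

variable (Γ)

/-- All letters of `l` lie at vertices adjacent to `α`. -/
def AllAdj (α : V) (l : List (Σ α, M α)) : Prop := ∀ b ∈ l, Γ.Adj α b.1

variable {Γ}

lemma allAdj_nil (α : V) : AllAdj Γ α ([] : List (Σ α, M α)) := by
  intro b hb; simp at hb

lemma allAdj_cons {α : V} {a : Σ α, M α} {l : List (Σ α, M α)} :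
    AllAdj Γ α (a :: l) ↔ Γ.Adj α a.1 ∧ AllAdj Γ α l := by
  simp [AllAdj]

lemma allAdj_append {α : V} {k l : List (Σ α, M α)} :
    AllAdj Γ α (k ++ l) ↔ AllAdj Γ α k ∧ AllAdj Γ α l := by
  simp only [AllAdj, List.mem_append]
  constructor
  · intro h; exact ⟨fun b hb => h b (Or.inl hb), fun b hb => h b (Or.inr hb)⟩
  · rintro ⟨h1, h2⟩ b (hb | hb)
    · exact h1 b hb
    · exact h2 b hb

/-- A letter moves through a word all of whose letters are adjacent to it. -/
lemma Sh.move {a : Σ α, M α} {k : List (Σ α, M α)} (h : AllAdj Γ a.1 k) (l : List (Σ α, M α)) :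
    Sh Γ (a :: (k ++ l)) (k ++ a :: l) := by
  induction k with
  | nil => exact Sh.refl _
  | cons b k ih =>
    rw [allAdj_cons] at h
    exact Sh.trans (Sh.swap a b _ h.1) (Sh.cons b (ih h.2))

open Classical in
/-- The `α`-head of a word (`1` if there is none). -/
noncomputable def hd (Γ : SimpleGraph V) (α : V) : List (Σ α, M α) → M α
  | [] => 1
  | a :: l => if h : a.1 = α then h ▸ a.2 else if Γ.Adj α a.1 then hd Γ α l else 1

open Classical in
/-- What remains of a word after removing the `α`-head. -/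
noncomputable def tl (Γ : SimpleGraph V) (α : V) : List (Σ α, M α) → List (Σ α, M α)
  | [] => []
  | a :: l => if a.1 = α then l else if Γ.Adj α a.1 then a :: tl Γ α l else a :: l

@[simp] lemma hd_nil (α : V) : hd Γ α ([] : List (Σ α, M α)) = 1 := rfl
@[simp] lemma tl_nil (α : V) : tl Γ α ([] : List (Σ α, M α)) = [] := rfl

@[simp] lemma hd_same (α : V) (m : M α) (l : List (Σ α, M α)) : hd Γ α (⟨α, m⟩ :: l) = m := by
  simp [hd]

@[simp] lemma tl_same (α : V) (m : M α) (l : List (Σ α, M α)) : tl Γ α (⟨α, m⟩ :: l) = l := by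
  simp [tl]

lemma hd_adj {α : V} {a : Σ α, M α} (h : Γ.Adj α a.1) (l : List (Σ α, M α)) :
    hd Γ α (a :: l) = hd Γ α l := by
  have : a.1 ≠ α := h.ne'
  simp [hd, this, h]

lemma tl_adj {α : V} {a : Σ α, M α} (h : Γ.Adj α a.1) (l : List (Σ α, M α)) :
    tl Γ α (a :: l) = a :: tl Γ α l := by
  have : a.1 ≠ α := h.ne'
  simp [tl, this, h]

lemma hd_block {α : V} {a : Σ α, M α} (h1 : a.1 ≠ α) (h2 : ¬ Γ.Adj α a.1)
    (l : List (Σ α, M α)) : hd Γ α (a :: l) = 1 := by
  simp [hd, h1, h2]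

lemma tl_block {α : V} {a : Σ α, M α} (h1 : a.1 ≠ α) (h2 : ¬ Γ.Adj α a.1)
    (l : List (Σ α, M α)) : tl Γ α (a :: l) = a :: l := by
  simp [tl, h1, h2]

/-- Case distinction for the first letter relative to `α`. -/
lemma letter_cases (Γ : SimpleGraph V) (α : V) (a : Σ α, M α) :
    (∃ m : M α, a = ⟨α, m⟩) ∨ Γ.Adj α a.1 ∨ (a.1 ≠ α ∧ ¬ Γ.Adj α a.1) := by
  obtain ⟨β, m⟩ := a
  by_cases h : β = α
  · subst h; exact Or.inl ⟨m, rfl⟩
  · by_cases h2 : Γ.Adj α β
    · exact Or.inr (Or.inl h2)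
    · exact Or.inr (Or.inr ⟨h, h2⟩)

lemma hd_append_of_allAdj {α : V} {k : List (Σ α, M α)} (h : AllAdj Γ α k)
    (l : List (Σ α, M α)) : hd Γ α (k ++ l) = hd Γ α l := by
  induction k with
  | nil => rfl
  | cons a k ih =>
    rw [allAdj_cons] at h
    rw [List.cons_append, hd_adj h.1, ih h.2]

lemma tl_append_of_allAdj {α : V} {k : List (Σ α, M α)} (h : AllAdj Γ α k)
    (l : List (Σ α, M α)) : tl Γ α (k ++ l) = k ++ tl Γ α l := by
  induction k with
  | nil => rfl
  | cons a k ih =>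
    rw [allAdj_cons] at h
    rw [List.cons_append, tl_adj h.1, ih h.2, List.cons_append]

lemma hd_append_of_not {α : V} {k : List (Σ α, M α)} (h : ¬ AllAdj Γ α k)
    (l : List (Σ α, M α)) : hd Γ α (k ++ l) = hd Γ α k := by
  induction k with
  | nil => exact absurd (allAdj_nil α) h
  | cons a k ih =>
    rcases letter_cases Γ α a with ⟨m, rfl⟩ | h1 | ⟨h1, h2⟩
    · simp
    · rw [allAdj_cons] at h
      rw [List.cons_append, hd_adj h1, hd_adj h1]
      exact ih (fun h3 => h ⟨h1, h3⟩)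
    · rw [List.cons_append, hd_block h1 h2, hd_block h1 h2]

lemma tl_append_of_not {α : V} {k : List (Σ α, M α)} (h : ¬ AllAdj Γ α k)
    (l : List (Σ α, M α)) : tl Γ α (k ++ l) = tl Γ α k ++ l := by
  induction k with
  | nil => exact absurd (allAdj_nil α) h
  | cons a k ih =>
    rcases letter_cases Γ α a with ⟨m, rfl⟩ | h1 | ⟨h1, h2⟩
    · simp
    · rw [allAdj_cons] at h
      rw [List.cons_append, tl_adj h1, tl_adj h1, List.cons_append]
      rw [ih (fun h3 => h ⟨h1, h3⟩)]
    · rw [List.cons_append, tl_block h1 h2, tl_block h1 h2, List.cons_append]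

/-- Reduced words. -/
def Red (Γ : SimpleGraph V) : List (Σ α, M α) → Prop
  | [] => True
  | a :: l => a.2 ≠ 1 ∧ hd Γ a.1 l = 1 ∧ Red Γ l

lemma red_nil : Red Γ ([] : List (Σ α, M α)) := trivial

lemma red_cons {a : Σ α, M α} {l : List (Σ α, M α)} :
    Red Γ (a :: l) ↔ a.2 ≠ 1 ∧ hd Γ a.1 l = 1 ∧ Red Γ l := Iff.rfl

lemma Red.ne_one {l : List (Σ α, M α)} (h : Red Γ l) : ∀ a ∈ l, a.2 ≠ 1 := by
  induction l with
  | nil => intro a ha; simp at ha
  | cons b l ih =>
    intro a ha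
    rcases List.mem_cons.mp ha with rfl | ha
    · exact h.1
    · exact ih h.2.2 a ha

lemma Red.of_append_right {k l : List (Σ α, M α)} (h : Red Γ (k ++ l)) : Red Γ l := by
  induction k with
  | nil => exact h
  | cons a k ih => exact ih h.2.2

lemma Red.of_append_left {k l : List (Σ α, M α)} (h : Red Γ (k ++ l)) : Red Γ k := by
  induction k with
  | nil => trivial
  | cons a k ih =>
    refine ⟨h.1, ?_, ih h.2.2⟩
    by_cases hk : AllAdj Γ a.1 k
    · have := hd_append_of_allAdj hk []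
      rw [List.append_nil] at this
      rw [this]; rfl
    · rw [← hd_append_of_not hk l]; exact h.2.1

/-- Invariance of the head under shuffles. -/
lemma Sh.hd_eq {l l' : List (Σ α, M α)} (h : Sh Γ l l') (α : V) : hd Γ α l = hd Γ α l' := by
  induction h with
  | refl l => rfl
  | @cons a l l' _ ih =>
    rcases letter_cases Γ α a with ⟨m, rfl⟩ | h1 | ⟨h1, h2⟩
    · simp
    · rw [hd_adj h1, hd_adj h1, ih]
    · rw [hd_block h1 h2, hd_block h1 h2]
  | swap a b l hab =>
    rcases letter_cases Γ α a with ⟨m, rfl⟩ | h1 | ⟨h1, h2⟩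
    · rw [hd_same, hd_adj hab, hd_same]
    · rcases letter_cases Γ α b with ⟨m, rfl⟩ | h3 | ⟨h3, h4⟩
      · rw [hd_adj h1, hd_same, hd_same]
      · rw [hd_adj h1, hd_adj h3, hd_adj h3, hd_adj h1]
      · rw [hd_adj h1, hd_block h3 h4, hd_block h3 h4]
    · rcases letter_cases Γ α b with ⟨m, rfl⟩ | h3 | ⟨h3, h4⟩
      · exact absurd hab.symm h2
      · rw [hd_block h1 h2, hd_adj h3, hd_block h1 h2]
      · rw [hd_block h1 h2, hd_block h3 h4]
  | trans _ _ ih1 ih2 => rw [ih1, ih2]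

/-- Invariance of the tail under shuffles. -/
lemma Sh.tl_sh {l l' : List (Σ α, M α)} (h : Sh Γ l l') (α : V) :
    Sh Γ (tl Γ α l) (tl Γ α l') := by
  induction h with
  | refl l => exact Sh.refl _
  | @cons a l l' h ih =>
    rcases letter_cases Γ α a with ⟨m, rfl⟩ | h1 | ⟨h1, h2⟩
    · simpa using h
    · rw [tl_adj h1, tl_adj h1]; exact Sh.cons a ih
    · rw [tl_block h1 h2, tl_block h1 h2]; exact Sh.cons a h
  | swap a b l hab =>
    rcases letter_cases Γ α a with ⟨m, rfl⟩ | h1 | ⟨h1, h2⟩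
    · rw [tl_same, tl_adj hab, tl_same]; exact Sh.refl _
    · rcases letter_cases Γ α b with ⟨m, rfl⟩ | h3 | ⟨h3, h4⟩
      · rw [tl_adj h1, tl_same, tl_same]; exact Sh.refl _
      · rw [tl_adj h1, tl_adj h3, tl_adj h3, tl_adj h1]; exact Sh.swap a b _ hab
      · rw [tl_adj h1, tl_block h3 h4, tl_block h3 h4]; exact Sh.swap a b _ hab
    · rcases letter_cases Γ α b with ⟨m, rfl⟩ | h3 | ⟨h3, h4⟩
      · exact absurd hab.symm h2
      · rw [tl_block h1 h2, tl_adj h3, tl_block h1 h2]; exact Sh.swap a b _ hab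
      · rw [tl_block h1 h2, tl_block h3 h4]; exact Sh.swap a b _ hab
  | trans _ _ ih1 ih2 => exact Sh.trans ih1 ih2

/-- Invariance of reducedness under shuffles. -/
lemma Sh.red {l l' : List (Σ α, M α)} (h : Sh Γ l l') : Red Γ l → Red Γ l' := by
  induction h with
  | refl l => exact id
  | @cons a l l' h ih =>
    rintro ⟨h1, h2, h3⟩
    exact ⟨h1, by rw [← h.hd_eq]; exact h2, ih h3⟩
  | swap a b l hab =>
    rintro ⟨h1, h2, h3, h4, h5⟩
    rw [hd_adj hab] at h2
    exact ⟨h3, by rw [hd_adj hab.symm]; exact h4, h1, h2, h5⟩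
  | trans _ _ ih1 ih2 => exact fun h => ih2 (ih1 h)

/-- A reduced word with nontrivial `α`-head can be shuffled so that it starts with it. -/
lemma sh_hd_tl {α : V} {l : List (Σ α, M α)} (h : hd Γ α l ≠ 1) :
    Sh Γ l (⟨α, hd Γ α l⟩ :: tl Γ α l) := by
  induction l with
  | nil => simp at h
  | cons a l ih =>
    rcases letter_cases Γ α a with ⟨m, rfl⟩ | h1 | ⟨h1, h2⟩
    · rw [hd_same, tl_same]; exact Sh.refl _
    · rw [hd_adj h1] at h ⊢
      rw [tl_adj h1]
      exact Sh.trans (Sh.cons a (ih h)) (Sh.swap a ⟨α, hd Γ α l⟩ _ h1.symm)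
    · rw [hd_block h1 h2] at h; exact absurd rfl h

/-- A reduced word with trivial `α`-head has no `α`-head. -/
lemma tl_eq_self {α : V} {l : List (Σ α, M α)} (hr : Red Γ l) (h : hd Γ α l = 1) :
    tl Γ α l = l := by
  induction l with
  | nil => rfl
  | cons a l ih =>
    rcases letter_cases Γ α a with ⟨m, rfl⟩ | h1 | ⟨h1, h2⟩
    · rw [hd_same] at h
      exact absurd h hr.1
    · rw [hd_adj h1] at h
      rw [tl_adj h1, ih hr.2.2 h]
    · rw [tl_block h1 h2]

lemma red_tl {α : V} {l : List (Σ α, M α)} (hr : Red Γ l) :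
    Red Γ (tl Γ α l) ∧ hd Γ α (tl Γ α l) = 1 := by
  by_cases h : hd Γ α l = 1
  · rw [tl_eq_self hr h]; exact ⟨hr, h⟩
  · have h2 := (sh_hd_tl h).red hr
    exact ⟨h2.2.2, h2.2.1⟩

end Pool.Agent.H.MP_96aaf1_al
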